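import Pool.Agent.Helper23.AC.Basics

/-! AC-6: the norm (MP_981e7e_an) -/

set_option autoImplicit false

namespace Pool.Agent.Helper23.AC

open Finset
open scoped Pointwise

/-- the hull of the norming set -/
abbrev HH : Set Fn := convexHull ℝ {f | Good 0 f}

lemma hh_convex : Convex ℝ HH := convex_convexHull ℝ _

lemma hh_sub {f : Fn} (hf : Good 0 f) : f ∈ HH := subset_convexHull ℝ _ hf

lemma hh_zero : (0 : Fn) ∈ HH := hh_sub (good_zero 0)

lemma hh_neg : ∀ x ∈ HH, -x ∈ HH := by
  intro x hx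
  have h1 : HH ⊆ (fun x : Fn => -x) ⁻¹' HH := by
    apply convexHull_min
    · intro f hf
      have := good_smul hf (a := -1) (by norm_num)
      rw [neg_one_smul] at this
      exact hh_sub this
    · exact hh_convex.is_linear_preimage (f := fun x : Fn => -x) (IsLinearMap.isLinearMap_neg)
  exact h1 hx

lemma hh_balanced : Balanced ℝ HH :=
  (balanced_iff_neg_mem hh_convex).2 fun x hx => hh_neg x hx

lemma hh_mem (x : Fn) : ∃ C : ℝ, 0 < C ∧ x ∈ C • HH := by
  induction x using Finsupp.induction_linear with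
  | zero => exact ⟨1, one_pos, by rw [one_smul]; exact hh_zero⟩
  | add f g hf hg =>
    obtain ⟨C, hC, hf⟩ := hf
    obtain ⟨D, hD, hg⟩ := hg
    refine ⟨C + D, by positivity, ?_⟩
    rw [hh_convex.add_smul hC.le hD.le]
    exact Set.add_mem_add hf hg
  | single n a =>
    refine ⟨8 * |a| + 1, by positivity, ?_⟩
    have hC : (0 : ℝ) < 8 * |a| + 1 := by positivity
    rw [Set.mem_smul_set_iff_inv_smul_mem₀ hC.ne', Finsupp.smul_single, smul_eq_mul]
    apply hh_sub
    apply typ_good (v := 1) _ le_rfl (Nat.zero_le 1)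
    apply typ_single
    rw [pow_one, abs_mul, abs_inv, abs_of_pos hC, inv_mul_le_iff₀ hC]
    linarith

lemma hh_absorbent : Absorbent ℝ HH := by
  intro x
  obtain ⟨C, hC, hx⟩ := hh_mem x
  rw [absorbs_iff_norm]
  refine ⟨C, fun c hc => ?_⟩
  rw [Set.singleton_subset_iff]
  exact hh_balanced.smul_mono (by rwa [Real.norm_of_nonneg hC.le]) hx

theorem nx_nonneg (x : Fn) : 0 ≤ nx x := gauge_nonneg x

theorem nx_zero : nx 0 = 0 := gauge_zero

theorem nx_smul (a : ℝ) (x : Fn) : nx (a • x) = |a| * nx x := by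
  unfold nx
  rw [gauge_smul hh_balanced, Real.norm_eq_abs]

theorem nx_add (x y : Fn) : nx (x + y) ≤ nx x + nx y := gauge_add_le hh_convex hh_absorbent x y

theorem nx_neg (x : Fn) : nx (-x) = nx x := by
  have := nx_smul (-1) x
  simpa using this

theorem nx_sum {ι : Type} (s : Finset ι) (x : ι → Fn) : nx (∑ i ∈ s, x i) ≤ ∑ i ∈ s, nx (x i) :=
  gauge_sum_le hh_convex hh_absorbent s x

theorem mem_hull_of_nx_lt {x : Fn} (h : nx x < 1) : x ∈ convexHull ℝ {f | Good 0 f} :=
  setOfPred_gauge_lt_one_subset_self hh_convex hh_zero hh_absorbent h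

theorem nx_le_one_of_mem {x : Fn} (h : x ∈ convexHull ℝ {f | Good 0 f}) : nx x ≤ 1 :=
  gauge_le_one_of_mem h

theorem nx_le_one_of_typ {v : ℕ} (hv : 1 ≤ v) {x : Fn} (h : x ∈ convexHull ℝ {f | Typ v f}) :
    nx x ≤ 1 :=
  nx_le_one_of_mem (convexHull_mono (fun _ hf => typ_good hf hv (Nat.zero_le v)) h)

/-- a linear map which maps the norming set into a multiple of the hull -/
lemma nx_map {φ : Fn →ₗ[ℝ] Fn} (hφ : ∀ f, Good 0 f → φ f ∈ HH) (x : Fn) :
    nx (φ x) ≤ nx x := by
  apply le_of_forall_gt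
  intro a ha
  obtain ⟨b, hb, hba, hx⟩ := exists_lt_of_gauge_lt hh_absorbent ha
  refine lt_of_le_of_lt (gauge_le_of_mem hb.le ?_) hba
  obtain ⟨y, hy, rfl⟩ := hx
  refine ⟨φ y, ?_, by simp⟩
  have h1 : HH ⊆ φ ⁻¹' HH :=
    convexHull_min (fun f hf => hφ f hf) (hh_convex.linear_preimage φ)
  exact h1 hy

/-- restriction as a linear map -/
noncomputable def resLin (E : Set ℕ) : Fn →ₗ[ℝ] Fn where
  toFun := res E
  map_add' := res_add E
  map_smul' := res_smul E

theorem nx_res (E : Set ℕ) (x : Fn) : nx (res E x) ≤ nx x :=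
  nx_map (φ := resLin E) (fun f hf => hh_sub (good_res hf E)) x

theorem nx_single (n : ℕ) (a : ℝ) : nx (Finsupp.single n a) ≤ 8 * |a| := by
  have h1 : (Finsupp.single n a : Fn) = (8 * a) • Finsupp.single n (1/8) := by
    rw [Finsupp.smul_single, smul_eq_mul]
    congr 1
    ring
  have h2 : nx (Finsupp.single n (1/8)) ≤ 1 := by
    apply nx_le_one_of_mem
    apply hh_sub
    apply typ_good (v := 1) _ le_rfl (Nat.zero_le 1)
    apply typ_single
    norm_num
  rw [h1, nx_smul, abs_mul, abs_of_pos (by norm_num : (0 : ℝ) < 8)]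
  have : 0 ≤ 8 * |a| := by positivity
  nlinarith

/-- linear functionals bounded on the norming set -/
lemma lin_le {φ : Fn →ₗ[ℝ] ℝ} {a : ℝ} (hφ : ∀ f, Good 0 f → φ f ≤ a) (x : Fn) :
    φ x ≤ a * nx x := by
  have ha : 0 ≤ a := by
    have := hφ 0 (good_zero 0)
    rwa [map_zero] at this
  have h1 : HH ⊆ {x | φ x ≤ a} :=
    convexHull_min (fun f hf => hφ f hf) (convex_halfSpace_le φ.isLinear a)
  have h2 : ∀ b : ℝ, nx x < b → φ x ≤ a * b := by
    intro b hb
    obtain ⟨b', hb', hba, hx⟩ := exists_lt_of_gauge_lt hh_absorbent hb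
    obtain ⟨y, hy, rfl⟩ := hx
    have h3 : φ y ≤ a := h1 hy
    show φ (b' • y) ≤ a * b
    rw [map_smul, smul_eq_mul]
    calc b' * φ y ≤ b' * a := by gcongr
      _ ≤ b * a := by gcongr
      _ = a * b := mul_comm _ _
  apply le_of_forall_pos_le_add
  intro ε hε
  have h4 := h2 (nx x + ε / (a + 1)) (by have : 0 < ε / (a + 1) := by positivity
                                         linarith)
  have h5 : a * (ε / (a + 1)) ≤ ε := by
    rw [← mul_div_assoc, div_le_iff₀ (by positivity)]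
    nlinarith
  linarith

/-- the pairing with `z` as a linear functional -/
noncomputable def prLin (z : ℕ → ℝ) : Fn →ₗ[ℝ] ℝ where
  toFun := fun f => pr f z
  map_add' := fun f g => pr_add f g z
  map_smul' := fun a f => by simp [pr_smul]

theorem pr_le_nx {z : ℕ → ℝ} {a : ℝ} (ha : 0 ≤ a) (hz : ∀ f, Good 0 f → pr f z ≤ a) (x : Fn) :
    |pr x z| ≤ a * nx x := by
  have h1 : ∀ y : Fn, pr y z ≤ a * nx y := fun y => lin_le (φ := prLin z) hz y
  rw [abs_le]
  constructor
  · have h2 := h1 ((-1 : ℝ) • x)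
    rw [pr_smul, nx_smul, abs_neg, abs_one, one_mul] at h2
    linarith
  · exact h1 x

theorem abs_le_nx (x : Fn) (n : ℕ) : |x n| ≤ nx x := by
  have h1 : ∀ f : Fn, pr f (fun m => if m = n then 1 else 0) = f n := by
    intro f
    unfold pr
    by_cases h : n ∈ f.support
    · simp [h]
    · simp [h, Finsupp.notMem_support_iff.1 h]
  have := pr_le_nx (z := fun m => if m = n then 1 else 0) (a := 1) zero_le_one (by
    intro f hf
    rw [h1]
    exact (le_abs_self _).trans (good_sup hf n)) x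
  rwa [h1, one_mul] at this

theorem nx_pos {x : Fn} (hx : x ≠ 0) : 0 < nx x := by
  obtain ⟨n, hn⟩ := Finsupp.ne_iff.1 hx
  exact lt_of_lt_of_le (abs_pos.2 hn) (abs_le_nx x n)

/-- a vector supported in `[l, r]` is its restriction -/
theorem res_Icc_self {x : Fn} {l r : ℕ} (hs : ∀ n ∈ x.support, l ≤ n ∧ n ≤ r) :
    res (Set.Icc l r) x = x := by
  classical
  ext n
  rw [res_apply]
  split_ifs with h
  · rfl
  · by_contra hne
    exact h (hs n (Finsupp.mem_support_iff.2 (Ne.symm hne)))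

/-- norming functionals of block vectors -/
theorem exists_norming {x : Fn} {l r : ℕ} (hx : x ≠ 0) (hs : ∀ n ∈ x.support, l ≤ n ∧ n ≤ r) :
    ∃ z : ℕ → ℝ, (∀ n, z n ≠ 0 → l ≤ n ∧ n ≤ r) ∧ pr x z = nx x ∧
      ∀ f, Good 0 f → |pr f z| ≤ 1 := by
  classical
  obtain ⟨φ, hφ1, hφ2⟩ := exists_extension_of_le_sublinear
    (LinearPMap.mkSpanSingleton x (nx x) hx) nx
    (fun c hc y => by rw [nx_smul, abs_of_pos hc]) nx_add (by
      rintro ⟨y, hy⟩
      obtain ⟨c, rfl⟩ := Submodule.mem_span_singleton.1 hy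
      rw [LinearPMap.mkSpanSingleton'_apply]
      show c • nx x ≤ nx (c • x)
      rw [nx_smul, smul_eq_mul]
      exact mul_le_mul_of_nonneg_right (le_abs_self c) (nx_nonneg x))
  set z : ℕ → ℝ := fun n => if n ∈ Set.Icc l r then φ (Finsupp.single n 1) else 0 with hz
  have hpr : ∀ f : Fn, pr f z = φ (res (Set.Icc l r) f) := by
    intro f
    have h1 : pr f z = pr (res (Set.Icc l r) f) (fun n => φ (Finsupp.single n 1)) := by
      symm
      apply pr_res
      · intro n hn
        simp only [hz]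
        rw [if_pos hn]
      · intro n hn
        simp only [hz]
        rw [if_neg hn]
    rw [h1]
    set g := res (Set.Icc l r) f with hg
    have h2 : g = ∑ n ∈ g.support, g n • (Finsupp.single n 1 : Fn) := by
      conv_lhs => rw [← Finsupp.sum_single g]
      unfold Finsupp.sum
      apply Finset.sum_congr rfl
      intro n _
      rw [Finsupp.smul_single, smul_eq_mul, mul_one]
    conv_rhs => rw [h2]
    rw [map_sum]
    unfold pr
    apply Finset.sum_congr rfl
    intro n _
    rw [map_smul, smul_eq_mul]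
  refine ⟨z, ?_, ?_, ?_⟩
  · intro n hn
    by_contra h
    apply hn
    simp only [hz]
    rw [if_neg (show ¬ n ∈ Set.Icc l r from h)]
  · rw [hpr, res_Icc_self hs]
    have h3 := hφ1 ⟨x, Submodule.mem_span_singleton_self x⟩
    rw [h3]
    exact LinearPMap.mkSpanSingleton_apply ℝ ℝ hx (nx x)
  · intro f hf
    rw [hpr, abs_le]
    have h4 : nx (res (Set.Icc l r) f) ≤ 1 :=
      (nx_res _ f).trans (nx_le_one_of_mem (hh_sub hf))
    constructor
    · have h5 := hφ2 (-(res (Set.Icc l r) f))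
      rw [map_neg, nx_neg] at h5
      linarith
    · exact (hφ2 _).trans h4

end Pool.Agent.Helper23.AC
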