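import Pool.Agent.Helper8.AC.Block

/-! AC-8: step 1, a subsequence with upper estimates (MP_981e7e_an) -/

set_option autoImplicit false

namespace Pool.Agent.Helper23.AC

open Finset Filter Topology
open scoped Pointwise

/-- value of an indexed sum of singles -/
theorem sum_single_apply {F : Finset ℕ} {ρ : ℕ → ℕ} (hρ : Set.InjOn ρ F) (a : ℕ → ℝ) {i : ℕ}
    (hi : i ∈ F) : (∑ j ∈ F, (Finsupp.single (ρ j) (a j) : Fn)) (ρ i) = a i := by
  rw [Finsupp.finsetSum_apply, Finset.sum_eq_single i]
  · simp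
  · intro j hj hji
    rw [Finsupp.single_apply, if_neg]
    intro h
    exact hji (hρ hj hi h)
  · intro h; exact absurd hi h

theorem sum_single_support (F : Finset ℕ) (ρ : ℕ → ℕ) (a : ℕ → ℝ) {n : ℕ}
    (hn : n ∈ (∑ j ∈ F, (Finsupp.single (ρ j) (a j) : Fn)).support) : ∃ i ∈ F, ρ i = n := by
  by_contra hc
  push Not at hc
  rw [Finsupp.mem_support_iff, Finsupp.finsetSum_apply] at hn
  apply hn
  apply Finset.sum_eq_zero
  intro j hj
  rw [Finsupp.single_apply, if_neg (hc j hj)]

/-- `ub_comp`, indexed form -/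
theorem ub_comp' {lam mu : ℝ} (F : Finset ℕ) (ρ : ℕ → ℕ) (hρ : Set.InjOn ρ F) (a : ℕ → ℝ)
    (h : UB lam (∑ i ∈ F, Finsupp.single (ρ i) (a i))) (hmu : 0 ≤ mu) (u : ℕ → Fn)
    (hu : ∀ i ∈ F, UB mu (u i)) (hs : ∀ i ∈ F, ∀ n ∈ (u i).support, ρ i ≤ n)
    (hdisj : ∀ i ∈ F, ∀ j ∈ F, i ≠ j → Disjoint (u i).support (u j).support) :
    UB (lam * mu) (∑ i ∈ F, a i • u i) := by
  classical
  set c : Fn := ∑ i ∈ F, Finsupp.single (ρ i) (a i) with hc
  set inv : ℕ → ℕ := Function.invFunOn ρ F with hinv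
  have h1 : ∀ i ∈ F, inv (ρ i) = i := fun i hi => hρ.leftInvOn_invFunOn hi
  have hsup : ∀ n ∈ c.support, ∃ i ∈ F, ρ i = n := fun n hn => sum_single_support F ρ a hn
  have hval : ∀ i ∈ F, c (ρ i) = a i := fun i hi => sum_single_apply hρ a hi
  have h2 := ub_comp h hmu (fun n => u (inv n)) (by
      intro n hn
      obtain ⟨i, hi, rfl⟩ := hsup n hn
      show UB mu (u (inv (ρ i)))
      rw [h1 i hi]
      exact hu i hi) (by
      intro n hn m hm
      obtain ⟨i, hi, rfl⟩ := hsup n hn
      rw [h1 i hi] at hm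
      exact hs i hi m hm) (by
      intro n hn m hm hnm
      obtain ⟨i, hi, rfl⟩ := hsup n hn
      obtain ⟨j, hj, rfl⟩ := hsup m hm
      rw [h1 i hi, h1 j hj]
      exact hdisj i hi j hj (fun h => hnm (by rw [h])))
  have h3 : ∑ n ∈ c.support, c n • u (inv n) = ∑ i ∈ F, a i • u i := by
    have h4 : c.support ⊆ F.image ρ := by
      intro n hn
      obtain ⟨i, hi, rfl⟩ := hsup n hn
      exact Finset.mem_image_of_mem ρ hi
    rw [Finset.sum_subset h4 (by
      intro n _ hn
      rw [Finsupp.notMem_support_iff.1 hn, zero_smul]), Finset.sum_image hρ]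
    apply Finset.sum_congr rfl
    intro i hi
    rw [hval i hi, h1 i hi]
  rwa [h3] at h2

theorem Blk.sep' {x : ℕ → Fn} {l r : ℕ → ℕ} (hB : Blk x l r) {i j : ℕ} (h : i < j) :
    r i < l j := by
  obtain ⟨k, rfl⟩ := Nat.exists_eq_add_of_lt h
  induction k with
  | zero => exact hB.sep i
  | succ k ih =>
    have h1 := ih (by omega)
    have h2 := hB.lr (i + k + 1)
    have h3 := hB.sep (i + k + 1)
    have : i + (k + 1) + 1 = i + k + 1 + 1 := by omega
    rw [this]
    omega

theorem Blk.r_mono {x : ℕ → Fn} {l r : ℕ → ℕ} (hB : Blk x l r) {i j : ℕ} (h : i < j) :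
    r i < r j := lt_of_lt_of_le (hB.sep' h) (hB.lr j)

theorem Blk.r_mono' {x : ℕ → Fn} {l r : ℕ → ℕ} (hB : Blk x l r) {i j : ℕ} (h : i ≤ j) :
    r i ≤ r j := by
  rcases h.eq_or_lt with h | h
  · rw [h]
  · exact (hB.r_mono h).le

theorem typIn_typ {v l r : ℕ} {f : Fn} (h : TypIn v l r f) : Typ v f := by
  obtain ⟨c, g, h1, _, _, h4⟩ := h
  exact ⟨c, g, h1, h4⟩

theorem typIn_zero (v l r : ℕ) : TypIn v l r 0 := by
  refine ⟨0, fun _ => 0, ⟨?_, ub_zero (bb_pos v).le, ?_, ?_, ?_⟩, ?_, ?_, ?_⟩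
  · intro π
    rw [Finsupp.coe_zero, Pi.zero_apply, abs_zero]
    positivity
  · intro π hπ; simp at hπ
  · intro π hπ; simp at hπ
  · intro π hπ; simp at hπ
  · intro π hπ; simp at hπ
  · intro π hπ; simp at hπ
  · simp [patF]

/-- vectors supported in `[l, r]` -/
theorem supp_convex (l r : ℕ) : Convex ℝ {f : Fn | ∀ n ∈ f.support, l ≤ n ∧ n ≤ r} := by
  intro f hf g hg a b _ _ _ n hn
  by_contra hc
  have h1 : f n = 0 := by
    by_contra h
    exact hc (hf n (Finsupp.mem_support_iff.2 h))
  have h2 : g n = 0 := by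
    by_contra h
    exact hc (hg n (Finsupp.mem_support_iff.2 h))
  rw [Finsupp.mem_support_iff] at hn
  apply hn
  rw [Finsupp.add_apply, Finsupp.smul_apply, Finsupp.smul_apply, h1, h2]
  simp

theorem supp_sum {ι : Type*} {l r : ℕ} (s : Finset ι) (f : ι → Fn)
    (h : ∀ i ∈ s, ∀ n ∈ (f i).support, l ≤ n ∧ n ≤ r) :
    ∀ n ∈ (∑ i ∈ s, f i).support, l ≤ n ∧ n ≤ r := by
  intro n hn
  by_contra hc
  rw [Finsupp.mem_support_iff, Finsupp.finsetSum_apply] at hn
  apply hn
  apply Finset.sum_eq_zero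
  intro i hi
  by_contra h'
  exact hc (h i hi n (Finsupp.mem_support_iff.2 h'))

theorem supp_smul {l r : ℕ} (a : ℝ) {f : Fn} (h : ∀ n ∈ f.support, l ≤ n ∧ n ≤ r) :
    ∀ n ∈ (a • f).support, l ≤ n ∧ n ≤ r := fun n hn => h n (Finsupp.support_smul hn)

theorem typIn_supp {v l r : ℕ} {f : Fn} (h : TypIn v l r f) : ∀ n ∈ f.support, l ≤ n ∧ n ≤ r := by
  obtain ⟨c, g, h1, h2, h3, rfl⟩ := h
  unfold patF
  apply supp_sum
  intro π hπ
  apply supp_smul
  intro n hn
  exact ⟨(h2 π hπ).1.trans (h1.s1 π hπ n hn), h3 π hπ n hn⟩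

theorem hull_typIn_supp {v l r : ℕ} {f : Fn} (h : f ∈ convexHull ℝ {f | TypIn v l r f}) :
    ∀ n ∈ f.support, l ≤ n ∧ n ≤ r :=
  convexHull_min (fun _ hf => typIn_supp hf) (supp_convex l r) h

/-- the choice of the subsequence -/
theorem exists_sub (q : ℕ → Fn) (hq : ∀ s, UB 1 (q s)) (hq0 : ∀ s v, 0 ≤ q s v) (r : ℕ → ℕ) :
    ∃ (σ : ℕ → ℕ) (Q : ℕ → ℝ), StrictMono σ ∧
      (∀ v, Tendsto (fun s => q (σ s) v) atTop (𝓝 (Q v))) ∧
      ∀ s, ∑ v ∈ Finset.range (r (σ s) + 1), |q (σ (s + 1)) v - Q v| ≤ (1 / 2 : ℝ) ^ s := by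
  have hcomp : IsCompact (Set.pi Set.univ (fun _ : ℕ => Set.Icc (0 : ℝ) 1)) :=
    isCompact_univ_pi (fun _ => isCompact_Icc)
  obtain ⟨Q, _, φ, hφ, hlim⟩ := hcomp.tendsto_subseq (x := fun s v => q s v) (by
    intro s v _
    exact ⟨hq0 s v, (le_abs_self _).trans (ub_coord (hq s) v)⟩)
  have hlim' : ∀ v, Tendsto (fun s => q (φ s) v) atTop (𝓝 (Q v)) := by
    intro v
    exact (tendsto_pi_nhds.1 hlim) v
  have hnext : ∀ s n : ℕ, ∃ m, n < m ∧
      ∑ v ∈ Finset.range (r (φ n) + 1), |q (φ m) v - Q v| ≤ (1 / 2 : ℝ) ^ s := by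
    intro s n
    have h1 : Tendsto (fun m => ∑ v ∈ Finset.range (r (φ n) + 1), |q (φ m) v - Q v|) atTop
        (𝓝 0) := by
      have h2 : Tendsto (fun m => ∑ v ∈ Finset.range (r (φ n) + 1), |q (φ m) v - Q v|) atTop
          (𝓝 (∑ v ∈ Finset.range (r (φ n) + 1), |Q v - Q v|)) := by
        apply tendsto_finsetSum
        intro v _
        exact ((hlim' v).sub_const (Q v)).abs
      simpa using h2
    have h3 := h1.eventually (ge_mem_nhds (by positivity : (0 : ℝ) < (1 / 2 : ℝ) ^ s))
    obtain ⟨m, hm1, hm2⟩ := (h3.and (eventually_gt_atTop n)).exists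
    exact ⟨m, hm2, hm1⟩
  choose g hg1 hg2 using hnext
  set τ : ℕ → ℕ := fun s => Nat.rec 0 (fun s n => g s n) s with hτ
  have hτs : ∀ s, τ (s + 1) = g s (τ s) := fun s => rfl
  have hτm : StrictMono τ := strictMono_nat_of_lt_succ (fun s => by rw [hτs]; exact hg1 s (τ s))
  refine ⟨φ ∘ τ, Q, hφ.comp hτm, ?_, ?_⟩
  · intro v
    exact (hlim' v).comp hτm.tendsto_atTop
  · intro s
    show ∑ v ∈ Finset.range (r (φ (τ s)) + 1), |q (φ (τ (s + 1))) v - Q v| ≤ _
    rw [hτs]
    exact hg2 s (τ s)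

theorem sum_half_pow (F : Finset ℕ) : ∑ s ∈ F, (1 / 2 : ℝ) ^ s ≤ 2 := by
  have h := Summable.sum_le_tsum F (fun i _ => by positivity) summable_geometric_two
  rwa [tsum_geometric_two] at h

theorem step1 {x : ℕ → Fn} {l r : ℕ → ℕ} (hB : Blk x l r) (hx : ∀ s, nx (x s) ≤ 1) :
    ∃ σ : ℕ → ℕ, StrictMono σ ∧ ∀ (L : ℕ), 1 ≤ L → ∀ (F : Finset ℕ) (c : ℕ → ℝ),
      (∀ s ∈ F, |c s| ≤ (1 / 8 : ℝ) ^ L) →
      UB (bb L) (∑ s ∈ F, Finsupp.single (r (σ s) + 1) (c s)) →
      nx (∑ s ∈ F, c s • x (σ (s + 1))) ≤ 12 := by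
  classical
  choose q Y0 hq hq0 hY0 hxe0 using fun s => block_decomp (hx s) (hB.supp s)
  -- modify `Y0` off the support
  obtain ⟨Y, hY1, hY0z, hxe⟩ : ∃ Y : ℕ → ℕ → Fn,
      (∀ s v, 1 ≤ v → Y s v ∈ convexHull ℝ {f | TypIn v (l s) (r s) f}) ∧ (∀ s, Y s 0 = 0) ∧
      ∀ s, x s = (4 : ℝ) • ∑ v ∈ (q s).support, q s v • Y s v := by
    refine ⟨fun s v => if v ∈ (q s).support then Y0 s v else 0, ?_, ?_, ?_⟩
    · intro s v hv
      beta_reduce
      split_ifs with h
      · exact (hY0 s v h).2
      · exact subset_convexHull ℝ _ (typIn_zero v (l s) (r s))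
    · intro s
      beta_reduce
      rw [if_neg]
      intro h
      have := (hY0 s 0 h).1
      omega
    · intro s
      conv_lhs => rw [hxe0 s]
      congr 1
      apply Finset.sum_congr rfl
      intro v hv
      beta_reduce
      rw [if_pos hv]
  obtain ⟨σ, Q, hσ, hlim, herr⟩ := exists_sub q hq hq0 r
  refine ⟨σ, hσ, ?_⟩
  intro L hL F c hc hUB
  -- notation
  set ρ : ℕ → ℕ := fun s => r (σ s) + 1 with hρ
  set J : ℕ → ℕ := fun s => σ (s + 1) with hJ
  have hρm : ∀ i j, i < j → ρ i < ρ j := fun i j hij => by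
    have := hB.r_mono (hσ hij)
    simp only [hρ]
    omega
  have hρinj : Set.InjOn ρ F := by
    intro i _ j _ hij
    by_contra hne
    rcases lt_or_gt_of_ne hne with h | h
    · exact absurd hij (hρm i j h).ne
    · exact absurd hij (hρm j i h).ne'
  have hρl : ∀ s, ρ s ≤ l (J s) := fun s => hB.sep' (hσ (Nat.lt_succ_self s))
  have hrρ : ∀ i j, i < j → r (J i) < ρ j := fun i j hij => by
    have h1 : σ (i + 1) ≤ σ j := hσ.monotone hij
    have := hB.r_mono' h1
    simp only [hρ, hJ]
    omega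
  have hrl : ∀ i j, i < j → r (J i) < l (J j) := fun i j hij =>
    lt_of_lt_of_le (hrρ i j hij) (hρl j)
  have hnxY : ∀ s v, nx (Y s v) ≤ 1 := by
    intro s v
    rcases Nat.eq_zero_or_pos v with rfl | hv
    · rw [hY0z, nx_zero]
      exact zero_le_one
    · exact nx_le_one_of_typ hv (convexHull_mono (fun f hf => typIn_typ hf) (hY1 s v hv))
  -- the three parts
  set qh : ℕ → Fn := fun s => (q (J s)).filter (fun v => ρ s ≤ v) with hqh
  set Hi : ℕ → Fn := fun s => ∑ v ∈ (qh s).support, qh s v • Y (J s) v with hHi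
  set Er : ℕ → Fn := fun s => ∑ v ∈ Finset.range (ρ s), (q (J s) v - Q v) • Y (J s) v with hEr
  set Lo : ℕ → Fn := fun s => ∑ v ∈ Finset.range (ρ s), Q v • Y (J s) v with hLo
  have hsplit : ∀ s, x (J s) = (4 : ℝ) • (Hi s + Er s + Lo s) := by
    intro s
    rw [hxe (J s), add_assoc]
    congr 1
    have h1 : Er s + Lo s = ∑ v ∈ Finset.range (ρ s), q (J s) v • Y (J s) v := by
      simp only [hEr, hLo]
      rw [← Finset.sum_add_distrib]
      apply Finset.sum_congr rfl
      intro v _
      rw [← add_smul, sub_add_cancel]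
    rw [h1, ← Finset.sum_filter_add_sum_filter_not (q (J s)).support (fun v => ρ s ≤ v)]
    congr 1
    · simp only [hHi, hqh]
      rw [Finsupp.support_filter]
      apply Finset.sum_congr rfl
      intro v hv
      rw [Finsupp.filter_apply_pos _ _ (Finset.mem_filter.1 hv).2]
    · apply Finset.sum_subset
      · intro v hv
        rw [Finset.mem_range]
        exact not_le.1 (Finset.mem_filter.1 hv).2
      · intro v hv hv'
        have : v ∉ (q (J s)).support := by
          intro h
          exact hv' (Finset.mem_filter.2 ⟨h, not_le.2 (Finset.mem_range.1 hv)⟩)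
        rw [Finsupp.notMem_support_iff.1 this, zero_smul]
  -- high part
  have hqhsup : ∀ s, ∀ v ∈ (qh s).support, v ∈ (q (J s)).support ∧ ρ s ≤ v := by
    intro s v hv
    simp only [hqh] at hv
    rw [Finsupp.support_filter] at hv
    exact Finset.mem_filter.1 hv
  have hHigh : nx (∑ s ∈ F, c s • Hi s) ≤ 1 := by
    apply nx_le_one_of_typ hL
    apply hull_good_sum F ρ (fun s => r (J s)) (fun i _ j _ hij => ⟨hρm i j hij, hrρ i j hij⟩) c Hi
    · intro s _
      apply hull_asm (ρ s) (qh s)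
      · apply ub_mono _ (hq (J s))
        intro n
        simp only [hqh]
        by_cases h : ρ s ≤ n
        · rw [Finsupp.filter_apply_pos _ _ h]
        · rw [Finsupp.filter_apply_neg _ _ h, abs_zero]
          exact abs_nonneg _
      · intro v hv
        obtain ⟨h1, h2⟩ := hqhsup s v hv
        have h3 : 1 ≤ v := by simp only [hρ] at h2; omega
        exact ⟨h2, h3, convexHull_mono (fun f hf => typIn_typ hf) (hY1 (J s) v h3)⟩
    · intro s _
      have h1 : ∀ n ∈ (Hi s).support, l (J s) ≤ n ∧ n ≤ r (J s) := by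
        simp only [hHi]
        apply supp_sum
        intro v hv
        apply supp_smul
        obtain ⟨h1, h2⟩ := hqhsup s v hv
        have h3 : 1 ≤ v := by simp only [hρ] at h2; omega
        exact hull_typIn_supp (hY1 (J s) v h3)
      intro n hn
      exact ⟨(hρl s).trans (h1 n hn).1, (h1 n hn).2⟩
    · exact hc
    · exact hUB
  -- error part
  have hcL : ∀ s ∈ F, |c s| ≤ 1/8 := by
    intro s hs
    refine (hc s hs).trans ?_
    calc (1 / 8 : ℝ) ^ L ≤ (1 / 8 : ℝ) ^ 1 :=
          pow_le_pow_of_le_one (by norm_num) (by norm_num) hL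
      _ = 1 / 8 := pow_one _
  have hErr1 : ∀ s, nx (Er s) ≤ (1 / 2 : ℝ) ^ s := by
    intro s
    simp only [hEr]
    refine (nx_sum _ _).trans ?_
    refine le_trans (Finset.sum_le_sum (fun v _ => ?_)) (herr s)
    rw [nx_smul]
    exact mul_le_of_le_one_right (abs_nonneg _) (hnxY _ _)
  have hErr : nx (∑ s ∈ F, c s • Er s) ≤ 1/4 := by
    refine (nx_sum _ _).trans ?_
    calc ∑ s ∈ F, nx (c s • Er s) ≤ ∑ s ∈ F, 1/8 * (1 / 2 : ℝ) ^ s := by
          apply Finset.sum_le_sum
          intro s hs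
          rw [nx_smul]
          exact mul_le_mul (hcL s hs) (hErr1 s) (nx_nonneg _) (by norm_num)
      _ = 1/8 * ∑ s ∈ F, (1 / 2 : ℝ) ^ s := by rw [Finset.mul_sum]
      _ ≤ 1/8 * 2 := by
          have := sum_half_pow F
          linarith
      _ = 1/4 := by norm_num
  -- low part
  set R : ℕ := F.sup ρ with hR
  set W : ℕ → Fn := fun v => ∑ s ∈ F.filter (fun s => v < ρ s), c s • Y (J s) v with hW
  have hLowEq : ∑ s ∈ F, c s • Lo s = ∑ v ∈ Finset.Ico 1 R, Q v • W v := by
    have h1 : ∀ s ∈ F, c s • Lo s = ∑ v ∈ Finset.range R,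
        if v < ρ s then (Q v * c s) • Y (J s) v else 0 := by
      intro s hs
      simp only [hLo]
      rw [← Finset.sum_filter, Finset.smul_sum]
      have h2 : (Finset.range R).filter (fun v => v < ρ s) = Finset.range (ρ s) := by
        ext v
        rw [Finset.mem_filter, Finset.mem_range, Finset.mem_range]
        constructor
        · exact fun h => h.2
        · intro h
          exact ⟨lt_of_lt_of_le h (Finset.le_sup hs), h⟩
      rw [h2]
      apply Finset.sum_congr rfl
      intro v _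
      rw [smul_smul, mul_comm]
    rw [Finset.sum_congr rfl h1, Finset.sum_comm]
    have h3 : ∀ v, (∑ s ∈ F, if v < ρ s then (Q v * c s) • Y (J s) v else 0) = Q v • W v := by
      intro v
      simp only [hW]
      rw [← Finset.sum_filter, Finset.smul_sum]
      apply Finset.sum_congr rfl
      intro s _
      rw [smul_smul]
    rw [Finset.sum_congr rfl (fun v _ => h3 v)]
    symm
    apply Finset.sum_subset
    · intro v hv
      rw [Finset.mem_range]
      exact (Finset.mem_Ico.1 hv).2
    · intro v hv hv'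
      have hv0 : v = 0 := by
        rw [Finset.mem_range] at hv
        rw [Finset.mem_Ico, not_and, not_lt] at hv'
        by_contra h
        have := hv' (Nat.one_le_iff_ne_zero.2 h)
        omega
      subst hv0
      have h4 : W 0 = 0 := by
        simp only [hW]
        apply Finset.sum_eq_zero
        intro s _
        rw [hY0z, smul_zero]
      rw [h4, smul_zero]
  have hWtyp : ∀ v, 1 ≤ v → W v ∈ convexHull ℝ {f | Typ (v + L) f} := by
    intro v hv
    simp only [hW]
    apply hull_typIn_sum (v := v) (v' := v + L) (F.filter (fun s => v < ρ s)) (fun s => l (J s))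
      (fun s => r (J s)) (fun i _ j _ hij => hrl i j hij) c (fun s => Y (J s) v)
    · intro s _
      exact hY1 (J s) v hv
    · intro s hs
      rw [pow_add, mul_comm]
      exact mul_le_mul_of_nonneg_left (hc s (Finset.mem_filter.1 hs).1) (by positivity)
    · intro c' hc'
      have h1 : UB (bb L) (∑ s ∈ F.filter (fun s => v < ρ s), Finsupp.single (ρ s) (c s)) := by
        apply ub_mono _ hUB
        intro n
        by_cases hn : ∃ s ∈ F.filter (fun s => v < ρ s), ρ s = n
        · obtain ⟨s, hs, rfl⟩ := hn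
          rw [sum_single_apply (hρinj.mono (by
              intro i hi
              exact Finset.mem_coe.2 (Finset.mem_filter.1 (Finset.mem_coe.1 hi)).1)) c hs,
            sum_single_apply (ρ := ρ) hρinj c (Finset.mem_filter.1 hs).1]
        · have h2 : (∑ s ∈ F.filter (fun s => v < ρ s), (Finsupp.single (ρ s) (c s) : Fn)) n = 0 := by
            by_contra h
            exact hn (sum_single_support _ ρ c (Finsupp.mem_support_iff.2 h))
          rw [h2, abs_zero]
          exact abs_nonneg _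
      have h3 := ub_comp' (F.filter (fun s => v < ρ s)) ρ (hρinj.mono (by
              intro i hi
              exact Finset.mem_coe.2 (Finset.mem_filter.1 (Finset.mem_coe.1 hi)).1)) c h1
              (bb_pos v).le c' (fun i hi => (hc' i hi).1)
              (fun i hi n hn => (hρl i).trans ((hc' i hi).2 n hn).1) (by
                intro i hi j hj hij
                rw [Finset.disjoint_left]
                intro n hn1 hn2
                have a1 := (hc' i hi).2 n hn1
                have a2 := (hc' j hj).2 n hn2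
                rcases lt_or_gt_of_ne hij with h | h
                · have := hrl i j h
                  omega
                · have := hrl j i h
                  omega)
      refine ub_weaken ?_ h3
      rw [add_comm v L]
      exact bb_mul_le L v
  have hLow : nx (∑ s ∈ F, c s • Lo s) ≤ 1 := by
    rw [hLowEq]
    apply nx_le_one_of_mem
    -- the profile
    set Qf : Fn := ∑ v ∈ Finset.Ico 1 R, Finsupp.single v (Q v) with hQf
    have hQv : ∀ v ∈ Finset.Ico 1 R, Qf v = Q v := by
      intro v hv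
      exact sum_single_apply (ρ := fun v => v) (fun a _ b _ h => h) Q hv
    have hQs : ∀ v ∈ Qf.support, v ∈ Finset.Ico 1 R := by
      intro v hv
      obtain ⟨i, hi, rfl⟩ := sum_single_support (Finset.Ico 1 R) (fun v => v) Q hv
      exact hi
    have hQub : UB 1 Qf := by
      apply ub_lim (c := fun s => res (Finset.Ico 1 R : Set ℕ) (q (σ s)))
      · intro s
        exact ub_res (hq (σ s)) _
      · intro n hn
        have h1 := hQs n hn
        rw [hQv n h1]
        have h2 : (fun s => (res (Finset.Ico 1 R : Set ℕ) (q (σ s))) n) = fun s => q (σ s) n := by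
          funext s
          rw [res_apply, if_pos (Finset.mem_coe.2 h1)]
        rw [h2]
        exact hlim n
    have hQ2 := ub_move hQub (fun v => v + L) (fun i _ j _ h => by
      have : i + L = j + L := h
      omega) (fun i _ => Nat.le_add_right i L)
    set Q2 : Fn := ∑ i ∈ Qf.support, Finsupp.single (i + L) (Qf i) with hQ2d
    have h1 := hull_asm 0 Q2 hQ2 (fun w => W (w - L)) (by
      intro w hw
      obtain ⟨i, hi, rfl⟩ := sum_single_support Qf.support (fun i => i + L) (fun i => Qf i) hw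
      have h2 := Finset.mem_Ico.1 (hQs i hi)
      refine ⟨Nat.zero_le _, by omega, ?_⟩
      show W (i + L - L) ∈ _
      rw [Nat.add_sub_cancel]
      exact hWtyp i h2.1)
    have h2 : ∑ w ∈ Q2.support, Q2 w • W (w - L) = ∑ v ∈ Finset.Ico 1 R, Q v • W v := by
      have hinj : Set.InjOn (fun i => i + L) (Qf.support : Set ℕ) := by
        intro i _ j _ h
        have : i + L = j + L := h
        omega
      have h3 : Q2.support ⊆ Qf.support.image (fun i => i + L) := by
        intro w hw
        obtain ⟨i, hi, rfl⟩ := sum_single_support Qf.support (fun i => i + L) (fun i => Qf i) hw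
        exact Finset.mem_image_of_mem (fun i => i + L) hi
      rw [Finset.sum_subset h3 (by
        intro n _ hn
        rw [Finsupp.notMem_support_iff.1 hn, zero_smul]), Finset.sum_image hinj]
      have h4 : ∀ i ∈ Qf.support, Q2 (i + L) • W (i + L - L) = Qf i • W i := by
        intro i hi
        rw [Nat.add_sub_cancel]
        congr 1
        exact sum_single_apply (ρ := fun i => i + L) hinj (fun i => Qf i) hi
      rw [Finset.sum_congr rfl h4, Finset.sum_subset (fun v hv => hQs v hv) (by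
        intro n _ hn
        rw [Finsupp.notMem_support_iff.1 hn, zero_smul])]
      apply Finset.sum_congr rfl
      intro v hv
      rw [hQv v hv]
    rw [← h2]
    exact h1
  -- total
  have htot : ∑ s ∈ F, c s • x (σ (s + 1)) = (4 : ℝ) • ((∑ s ∈ F, c s • Hi s) +
      (∑ s ∈ F, c s • Er s) + ∑ s ∈ F, c s • Lo s) := by
    rw [← Finset.sum_add_distrib, ← Finset.sum_add_distrib, Finset.smul_sum]
    apply Finset.sum_congr rfl
    intro s _
    have := hsplit s
    simp only [hJ] at this
    rw [this, smul_comm]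
    congr 1
    rw [smul_add, smul_add]
  rw [htot, nx_smul, abs_of_pos (by norm_num : (0 : ℝ) < 4)]
  have h1 := nx_add ((∑ s ∈ F, c s • Hi s) + (∑ s ∈ F, c s • Er s)) (∑ s ∈ F, c s • Lo s)
  have h2 := nx_add (∑ s ∈ F, c s • Hi s) (∑ s ∈ F, c s • Er s)
  linarith

end Pool.Agent.Helper23.AC
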