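import Pool.Agent.Helper8.AC.Norm
import Pool.Agent.Helper23.AC.UBall
import Pool.Agent.Helper23.AC.Peel
import Pool.Agent.Helper9.AC.Hull

/-! AC-6: decomposition of block vectors (MP_981e7e_an) -/

set_option autoImplicit false

namespace Pool.Agent.Helper23.AC

open Finset
open scoped Pointwise

/-- decomposition of a block vector of norm at most one -/
theorem block_decomp {x : Fn} {l r : ℕ} (hx : nx x ≤ 1)
    (hs : ∀ n ∈ x.support, l ≤ n ∧ n ≤ r) :
    ∃ (q : Fn) (Y : ℕ → Fn), UB 1 q ∧ (∀ v, 0 ≤ q v) ∧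
      (∀ v ∈ q.support, 1 ≤ v ∧ Y v ∈ convexHull ℝ {f | TypIn v l r f}) ∧
      x = (4 : ℝ) • ∑ v ∈ q.support, q v • Y v := by
  have h1 : (8/9 : ℝ) • x ∈ HH := by
    apply mem_hull_of_nx_lt
    rw [nx_smul, abs_of_pos (by norm_num)]
    linarith
  set G : Set Fn := {h : Fn | ∃ (p : Fn) (F : ℕ → Fn), UB 1 p ∧
        (∀ v ∈ p.support, 1 ≤ v ∧ TypIn v l r (F v)) ∧ h = ∑ v ∈ p.support, p v • F v} with hG
  have h2 : HH ⊆ ((1/3 : ℝ) • resLin (Set.Icc l r)) ⁻¹' (convexHull ℝ G) := by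
    apply convexHull_min
    · intro f hf
      obtain ⟨h, hh, hhe⟩ := good_peel hf l r
      show (1/3 : ℝ) • res (Set.Icc l r) f ∈ convexHull ℝ G
      rw [hhe, smul_smul]
      norm_num
      exact hh
    · exact (convex_convexHull ℝ G).linear_preimage _
  have h3 : (8/27 : ℝ) • x ∈ convexHull ℝ G := by
    have h4 := h2 h1
    have h5 : ((1/3 : ℝ) • resLin (Set.Icc l r)) ((8/9 : ℝ) • x) = (8/27 : ℝ) • x := by
      show (1/3 : ℝ) • res (Set.Icc l r) ((8/9 : ℝ) • x) = _
      rw [res_smul, res_Icc_self hs, smul_smul]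
      norm_num
    rw [Set.mem_preimage, h5] at h4
    exact h4
  obtain ⟨q, Y, hq, hq0, hY, he⟩ := hull_decomp h3
  refine ⟨(27/32 : ℝ) • q, Y, ?_, ?_, ?_, ?_⟩
  · apply ub_mono _ hq
    intro n
    rw [Finsupp.smul_apply, smul_eq_mul, abs_mul, abs_of_pos (by norm_num : (0 : ℝ) < 27/32)]
    have := abs_nonneg (q n)
    linarith
  · intro v
    rw [Finsupp.smul_apply, smul_eq_mul]
    have := hq0 v
    positivity
  · intro v hv
    exact hY v (Finsupp.support_smul hv)
  · have h6 : ((27/32 : ℝ) • q).support = q.support := Finsupp.support_smul_eq (by norm_num)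
    rw [h6]
    have h7 : ∑ v ∈ q.support, ((27/32 : ℝ) • q) v • Y v =
        (27/32 : ℝ) • ∑ v ∈ q.support, q v • Y v := by
      rw [Finset.smul_sum]
      apply Finset.sum_congr rfl
      intro v _
      rw [Finsupp.smul_apply, smul_eq_mul, smul_smul]
    rw [h7, ← he, smul_smul, smul_smul]
    norm_num

end Pool.Agent.Helper23.AC
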